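import Mathlib

/-!
# MP_b003da_nt : k-large solutions of y^2 + x^2 y + z^2 x + 1 = 0

If `s, v` are odd integers with `s ^ 2 - 2 v ^ 2 = 7` then
`x = (s ^ 2 + 1) / 2`, `y = s (s ^ 2 + 5) / 4 - (s ^ 2 + 1) ^ 2 / 8`,
`z = (s ^ 2 + 3) v / 4` is an integer solution.  With `s = 2 a + 1` everything is a
polynomial in `a` and `v`, and the Pell unit `3 + 2 sqrt 2` produces infinitely many `(a, v)`.
-/

namespace Pool.Agent.Results.MP_b003da_nt.LargeSolutions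

/-- Pell type recursion: arbitrarily large `(a, v)` with `v ^ 2 = 2 a ^ 2 + 2 a - 3`. -/
theorem pell (n : ℕ) : ∃ a v : ℤ, v ^ 2 = 2 * a ^ 2 + 2 * a - 3 ∧
    (n : ℤ) + 1 ≤ a ∧ (n : ℤ) + 1 ≤ v := by
  induction n with
  | zero => exact ⟨1, 1, by norm_num, by norm_num, by norm_num⟩
  | succ n ih =>
    obtain ⟨a, v, h, ha, hv⟩ := ih
    refine ⟨3 * a + 1 + 2 * v, 4 * a + 2 + 3 * v, by linear_combination h, ?_, ?_⟩
    · push_cast
      have : (0 : ℤ) ≤ n := Int.natCast_nonneg n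
      linarith
    · push_cast
      have : (0 : ℤ) ≤ n := Int.natCast_nonneg n
      linarith

/-- The solution attached to `(a, v)`. -/
theorem identity (a v : ℤ) (h : v ^ 2 = 2 * a ^ 2 + 2 * a - 3) :
    (-2 * a ^ 4 - 2 * a ^ 3 - a ^ 2 + 2 * a + 1) ^ 2
      + (2 * a ^ 2 + 2 * a + 1) ^ 2 * (-2 * a ^ 4 - 2 * a ^ 3 - a ^ 2 + 2 * a + 1)
      + ((a ^ 2 + a + 1) * v) ^ 2 * (2 * a ^ 2 + 2 * a + 1) + 1 = 0 := by
  linear_combination ((a ^ 2 + a + 1) ^ 2 * (2 * a ^ 2 + 2 * a + 1)) * h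

/-- For every `k` the equation `y ^ 2 + x ^ 2 y + z ^ 2 x + 1 = 0` has an integer solution all of
whose coordinates have absolute value at least `k`. -/
theorem result : ∀ k : ℤ, ∃ x y z : ℤ,
    y ^ 2 + x ^ 2 * y + z ^ 2 * x + 1 = 0 ∧ k ≤ |x| ∧ k ≤ |y| ∧ k ≤ |z| := by
  intro k
  obtain ⟨a, v, h, ha, hv⟩ := pell k.toNat
  have hk : k ≤ (k.toNat : ℤ) := Int.self_le_toNat k
  have hn : (0 : ℤ) ≤ (k.toNat : ℤ) := Int.natCast_nonneg _
  have ha1 : 1 ≤ a := by linarith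
  have hv1 : 1 ≤ v := by linarith
  refine ⟨2 * a ^ 2 + 2 * a + 1, -2 * a ^ 4 - 2 * a ^ 3 - a ^ 2 + 2 * a + 1,
    (a ^ 2 + a + 1) * v, identity a v h, ?_, ?_, ?_⟩
  · refine le_trans ?_ (le_abs_self _)
    nlinarith
  · refine le_trans ?_ (neg_le_abs _)
    have h2 : a ≤ a ^ 2 := by nlinarith
    have h3 : a ≤ a ^ 3 := by nlinarith
    have h4 : a ≤ a ^ 4 := by nlinarith
    linarith
  · refine le_trans ?_ (le_abs_self _)
    nlinarith [sq_nonneg a]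

end Pool.Agent.Results.MP_b003da_nt.LargeSolutions
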